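import Pool.Agent.helper10.OM.Spec

/-!
# Row om:ARC
-/

set_option autoImplicit false

open Finset Real

namespace Pool.Agent.OM

theorem ARC_dvd (a b L m₁ κ : ℕ) (h1 : m₁ ≤ L) (h2 : 1 ≤ κ) (h3 : κ < L) :
    ((a : ℤ) ^ m₁ * ((a : ℤ) ^ κ - (b : ℤ) ^ κ)) ∣ ((MM1 a b L : ℕ) : ℤ) := by
  rw [← Int.natAbs_dvd_natAbs, Int.natAbs_mul, Int.natAbs_pow, Int.natAbs_natCast, Int.natAbs_natCast]
  unfold MM1
  refine mul_dvd_mul (pow_dvd_pow a h1) ?_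
  exact Finset.dvd_prod_of_mem (fun k => ((a : ℤ) ^ k - (b : ℤ) ^ k).natAbs) (Finset.mem_Ico.mpr ⟨h2, h3⟩)

theorem ARC : ARC_stmt := by
  intro a b L ha hb α β ρ m₁ m₂ hm₁ hm hL hρ h1 h2
  obtain ⟨n₁, hn₁⟩ := h1
  obtain ⟨n₂, hn₂⟩ := h2
  obtain ⟨κ, hκ⟩ : ∃ κ, m₂ = m₁ + κ := ⟨m₂ - m₁, by omega⟩
  have hκ1 : 1 ≤ κ := by omega
  have hκL : κ < L := by omega
  obtain ⟨T, hT⟩ := ARC_dvd a b L m₁ κ (by omega) hκ1 hκL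
  set c : ℤ := (a : ℤ) ^ m₁ * ((a : ℤ) ^ κ - (b : ℤ) ^ κ) with hc
  have hb1 : (1 : ℝ) ≤ b := by exact_mod_cast hb
  have hbκ : (b : ℝ) ^ κ ≤ (b : ℝ) ^ L := pow_le_pow_right₀ hb1 hκL.le
  have hbκ0 : (0 : ℝ) ≤ (b : ℝ) ^ κ := by positivity
  have key : |(c : ℝ) * α - ((n₂ - (b : ℤ) ^ κ * n₁ : ℤ) : ℝ)| ≤ (1 + (b : ℝ) ^ L) * ρ := by
    have e1 : (c : ℝ) * α - ((n₂ - (b : ℤ) ^ κ * n₁ : ℤ) : ℝ) =
        ((a : ℝ) ^ m₂ * α + (b : ℝ) ^ m₂ * β - n₂) - (b : ℝ) ^ κ * ((a : ℝ) ^ m₁ * α + (b : ℝ) ^ m₁ * β - n₁) := by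
      rw [hc, hκ, pow_add, pow_add]
      push_cast
      ring
    rw [e1]
    refine (abs_sub _ _).trans ?_
    rw [abs_mul, abs_of_nonneg hbκ0]
    have h3 : (b : ℝ) ^ κ * |(a : ℝ) ^ m₁ * α + (b : ℝ) ^ m₁ * β - n₁| ≤ (b : ℝ) ^ κ * ρ :=
      mul_le_mul_of_nonneg_left hn₁ hbκ0
    have h4 : (b : ℝ) ^ κ * ρ ≤ (b : ℝ) ^ L * ρ := mul_le_mul_of_nonneg_right hbκ hρ
    linarith
  have hM : ((MM1 a b L : ℕ) : ℝ) = (c : ℝ) * (T : ℝ) := by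
    have : (((MM1 a b L : ℕ) : ℤ) : ℝ) = ((c * T : ℤ) : ℝ) := by rw [hT]
    push_cast at this
    exact this
  have hTb : |(T : ℝ)| ≤ ((MM1 a b L : ℕ) : ℝ) ∨ ((MM1 a b L : ℕ) : ℝ) = 0 := by
    by_cases h0 : c = 0
    · right
      rw [hM, h0]
      simp
    · left
      have h5 : (1 : ℝ) ≤ |(c : ℝ)| := by exact_mod_cast Int.one_le_abs h0
      have h6 : ((MM1 a b L : ℕ) : ℝ) = |(c : ℝ)| * |(T : ℝ)| := by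
        rw [← abs_mul, ← hM, abs_of_nonneg (Nat.cast_nonneg _)]
      rw [h6]
      nlinarith [abs_nonneg (T : ℝ)]
  rcases hTb with h | h
  · refine ⟨T * (n₂ - (b : ℤ) ^ κ * n₁), ?_⟩
    have e2 : ((MM1 a b L : ℕ) : ℝ) * α - ((T * (n₂ - (b : ℤ) ^ κ * n₁) : ℤ) : ℝ) =
        (T : ℝ) * ((c : ℝ) * α - ((n₂ - (b : ℤ) ^ κ * n₁ : ℤ) : ℝ)) := by
      rw [hM]
      push_cast
      ring
    rw [e2, abs_mul, mul_assoc]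
    exact mul_le_mul h key (abs_nonneg _) (Nat.cast_nonneg _)
  · rw [h]
    exact ⟨0, by simp⟩

end Pool.Agent.OM
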